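import Pool.Agent.Y19.TP.Stm2
import Pool.Agent.Y314.TP.FLD

/-!
# Field of definition of bounded degree, second part
-/

set_option autoImplicit false

namespace Pool.Agent.Y675.TP

open Polynomial Pool.Agent.Y19.TP

/-- The polynomial with parameters `(a, c)`. -/
noncomputable def Phi {E : Type} [Field E] (g : E[X]) (x : E × E) : E[X] :=
  (C x.1 * g - C (x.1 * x.2)).comp (C x.1⁻¹ * X + C x.2)

open scoped Classical in
/-- The finite set of candidates. -/
noncomputable def cand {E : Type} [Field E] (g : E[X]) (d : ℕ) : Finset E[X] :=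
  ((X ^ (d - 1) - 1 : E[X]).roots.toFinset ×ˢ (derivative g).roots.toFinset).image (Phi g)

theorem card_cand {E : Type} [Field E] (g : E[X]) (d : ℕ) (hd : 2 ≤ d) (hg : g.natDegree = d) :
    (cand g d).card ≤ d ^ 2 := by
  classical
  unfold cand
  refine Finset.card_image_le.trans ?_
  rw [Finset.card_product, sq]
  refine Nat.mul_le_mul ?_ ?_
  · refine (Multiset.toFinset_card_le _).trans ((card_roots' _).trans ?_)
    have : (X ^ (d - 1) - 1 : E[X]) = X ^ (d - 1) - C 1 := by rw [C_1]
    rw [this, natDegree_X_pow_sub_C]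
    omega
  · exact (Multiset.toFinset_card_le _).trans ((card_roots' _).trans
      ((natDegree_derivative_le g).trans (by omega)))

theorem mem_cand {E : Type} [Field E] (g h : E[X]) (d : ℕ) (hd : 2 ≤ d) (hgm : g.Monic)
    (hg : g.natDegree = d) (hg' : derivative g ≠ 0) (hhm : h.Monic) (hh : h.natDegree = d)
    (hh1 : h.coeff 1 = 0) (hc : AffConj h g) : h ∈ cand g d := by
  classical
  obtain ⟨a, b, ha, hab⟩ := hc
  have hlin : (C a * X + C b).natDegree = 1 := natDegree_linear ha
  have hlead : a ^ d = a := by
    have h1 : (h.comp (C a * X + C b)).coeff d = (C a * g + C b).coeff d := by rw [hab]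
    have h2 : (h.comp (C a * X + C b)).coeff (h.natDegree * (C a * X + C b).natDegree) =
        h.leadingCoeff * (C a * X + C b).leadingCoeff ^ h.natDegree :=
      coeff_comp_degree_mul_degree (by rw [hlin]; exact one_ne_zero)
    rw [hlin, mul_one, hh, hhm.leadingCoeff, one_mul, leadingCoeff_linear ha] at h2
    rw [h2] at h1
    rw [h1, coeff_add, coeff_C_mul, ← hg, hgm.coeff_natDegree, mul_one, coeff_C, if_neg (by omega),
      add_zero]
  have hroot : a ^ (d - 1) = 1 := by
    have h1 : a ^ (d - 1) * a = 1 * a := by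
      rw [← pow_succ, Nat.sub_add_cancel (by omega), hlead, one_mul]
    exact mul_right_cancel₀ ha h1
  have hder : (derivative g).eval (-b / a) = 0 := by
    have h1 := congrArg (fun q => (derivative q).eval (-b / a)) hab
    simp only [derivative_comp, derivative_add, derivative_mul, derivative_C, derivative_X,
      zero_mul, zero_add, mul_one, add_zero, eval_mul, eval_C, eval_comp, eval_add, eval_X] at h1
    have h2 : a * (-b / a) + b = 0 := by
      field_simp
      ring
    rw [h2] at h1
    have h3 : (derivative h).eval 0 = 0 := by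
      rw [← coeff_zero_eq_eval_zero, coeff_derivative, zero_add, hh1, zero_mul]
    rw [h3, mul_zero] at h1
    exact (mul_eq_zero.1 h1.symm).resolve_left ha
  refine Finset.mem_image.2 ⟨(a, -b / a), Finset.mem_product.2 ⟨?_, ?_⟩, ?_⟩
  · rw [Multiset.mem_toFinset, mem_roots]
    · simp [IsRoot, hroot]
    · have : (X ^ (d - 1) - 1 : E[X]) = X ^ (d - 1) - C 1 := by rw [C_1]
      rw [this]
      exact X_pow_sub_C_ne_zero (by omega) _
  · rw [Multiset.mem_toFinset, mem_roots hg']
    exact hder
  · unfold Phi
    have h1 : C a * g - C (a * (-b / a)) = C a * g + C b := by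
      have : a * (-b / a) = -b := by field_simp
      rw [this, C_neg, sub_neg_eq_add]
    simp only
    rw [h1, ← hab, comp_assoc]
    have h2 : (C a * X + C b).comp (C a⁻¹ * X + C (-b / a)) = X := by
      simp only [add_comp, mul_comp, C_comp, X_comp]
      rw [mul_add, ← mul_assoc, ← C_mul, mul_inv_cancel₀ ha, C_1, one_mul, ← C_mul, add_assoc,
        ← C_add]
      have : a * (-b / a) + b = 0 := by
        field_simp
        ring
      rw [this, C_0, add_zero]
    rw [h2, comp_X]

/-- An element with few conjugates has small degree. -/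
theorem small_degree {K E : Type} [Field K] [CharZero K] [Field E] [Algebra K E] [IsAlgClosed E]
    [Algebra.IsAlgebraic K E] (x : E) (Z : Finset E) (hZ : ∀ σ : E ≃ₐ[K] E, σ x ∈ Z) :
    (minpoly K x).natDegree ≤ Z.card := by
  classical
  have : IsAlgClosure K E := ⟨inferInstance, inferInstance⟩
  have : Normal K E := IsAlgClosure.normal K E
  have hx : IsAlgebraic K x := Algebra.IsAlgebraic.isAlgebraic x
  have hsep : (minpoly K x).Separable := (minpoly.irreducible hx.isIntegral).separable
  have hcard := card_rootSet_eq_natDegree hsep (IsAlgClosed.splits ((minpoly K x).map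
    (algebraMap K E)))
  rw [← hcard, ← Set.toFinset_card]
  refine Finset.card_le_card ?_
  intro y hy
  rw [Set.mem_toFinset, mem_rootSet] at hy
  obtain ⟨σ, hσ⟩ := minpoly.exists_algEquiv_of_root hx hy.2
  rw [show y = σ.symm x by rw [← hσ, AlgEquiv.symm_apply_apply]]
  exact hZ σ.symm

theorem t_FLDW : FLDW := by
  intro p _ n d hd K hK hn g hg hgd hg1 hconj
  classical
  have hg' : derivative g ≠ 0 := by
    intro h0
    have := derivative_eq_zero.1 h0
    omega
  have hcand : ∀ σ : PadicAlgCl p ≃ₐ[K] PadicAlgCl p,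
      g.map (σ.toRingEquiv : PadicAlgCl p →+* PadicAlgCl p) ∈ cand g d := by
    intro σ
    refine mem_cand g _ d hd hg hgd hg' (hg.map _) ?_ ?_ (hconj σ)
    · rw [natDegree_map, hgd]
    · rw [coeff_map, hg1, map_zero]
  have hsmall : ∀ i, (minpoly K (g.coeff i)).natDegree ≤ d ^ 2 := by
    intro i
    refine (small_degree (K := K) (g.coeff i) ((cand g d).image fun q => q.coeff i) ?_).trans
      (Finset.card_image_le.trans (card_cand g d hd hgd))
    intro σ
    refine Finset.mem_image.2 ⟨_, hcand σ, ?_⟩
    rw [coeff_map]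
    rfl
  -- the coefficients
  obtain ⟨L1, hK1, hS1, hf1, hn1⟩ := Y314.TP.adj_fin K hK n (d ^ 2) hn
    ((Finset.range d).image fun i => g.coeff i) (by
      intro x hx
      obtain ⟨i, _, rfl⟩ := Finset.mem_image.1 hx
      have hint : IsIntegral K (g.coeff i) := Algebra.IsIntegral.isIntegral _
      refine ⟨(minpoly K (g.coeff i)).map (algebraMap K (PadicAlgCl p)), ?_, ?_, ?_, ?_⟩
      · exact (Polynomial.map_ne_zero_iff (algebraMap K (PadicAlgCl p)).injective).2
          (minpoly.ne_zero hint)
      · rw [natDegree_map]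
        exact hsmall i
      · intro k
        rw [coeff_map]
        exact ((minpoly K (g.coeff i)).coeff k).2
      · rw [eval_map_algebraMap]
        exact minpoly.aeval K _)
  have hc1 : ∀ i, g.coeff i ∈ L1 := by
    intro i
    rcases lt_trichotomy i d with hi | hi | hi
    · exact hS1 _ (Finset.mem_image.2 ⟨i, Finset.mem_range.2 hi, rfl⟩)
    · rw [hi, ← hgd, hg.coeff_natDegree]
      exact L1.one_mem
    · rw [coeff_eq_zero_of_natDegree_lt (by rw [hgd]; exact hi)]
      exact L1.zero_mem
  have hcard1 : ((Finset.range d).image fun i => g.coeff i).card ≤ d :=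
    Finset.card_image_le.trans (Finset.card_range d).le
  have hd2 : 0 < d ^ 2 := by positivity
  -- the critical points
  have hdeg : (derivative g).natDegree ≤ d := (natDegree_derivative_le g).trans (by omega)
  obtain ⟨L, h1L, hSL, hfL, hnL⟩ := Y314.TP.adj_fin L1 hf1 (n * (d ^ 2) ^ d) d
    (hn1.trans (Nat.mul_le_mul_left _ (Nat.pow_le_pow_right hd2 hcard1)))
    (derivative g).roots.toFinset (by
      intro x hx
      refine ⟨derivative g, hg', hdeg, ?_, ?_⟩
      · intro i
        rw [coeff_derivative]
        refine L1.mul_mem (hc1 _) ?_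
        exact L1.add_mem (natCast_mem L1 i) L1.one_mem
      · exact (mem_roots hg').1 (Multiset.mem_toFinset.1 hx))
  have hcard2 : (derivative g).roots.toFinset.card ≤ d :=
    (Multiset.toFinset_card_le _).trans ((card_roots' _).trans hdeg)
  refine ⟨L, hfL, ?_, fun i => h1L (hc1 i), ?_⟩
  · rw [← mul_assoc]
    exact hnL.trans (Nat.mul_le_mul_left _ (Nat.pow_le_pow_right (by omega) hcard2))
  · intro c hc
    exact hSL c (Multiset.mem_toFinset.2 ((mem_roots hg').2 hc))

end Pool.Agent.Y675.TP
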